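import Pool.Agent.Run7.h460.QD.Fam

/-!
# The multiplicities of the Artin representations of almost all radical fields are zero, inside arbitrary
# dense sets of cubic twists

`E_D : y² + D y = x³` over `ℚ`; `D` runs over the family of the squarefree numbers prime to `3`, not `±1`
modulo `9`, with exactly one prime factor `≡ 2` modulo `3`. `d = (d_1, ..., d_n)` are natural numbers all of
whose prime factors are `1` modulo `9`, independent modulo cubes; `F_d = ℚ(ω, ∛d_1, ..., ∛d_n)`, a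
nonabelian Galois extension of `ℚ` of degree `2 · 3^n`. Its irreducible representations which are not trivial
on `Gal(F_d / ℚ(ω))` are the `(3^n - 1) / 2` two-dimensional ones; all are self-dual. `mult F D ρ` is
`m_ρ(E_D) = dim Hom_G(ρ, E_D(F) ⊗ ℂ)`. `c = ∏_{i ≥ 1} (1 - 3^{-i}) = 0.5601...`.

* **Dense sets.** Let `A` be an arbitrary set of members of the family, of upper density at least `δ`, and
  `J` a finite set of tuples `d` such that the fields `F_d` are linearly disjoint in pairs over `ℚ(ω)`. If `J`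
  has more than `4 / ε²` elements, then for some `d ∈ J` the `D ∈ A` such that `m_ρ(E_D) = 0` for all the
  two-dimensional `ρ` of `Gal(F_d / ℚ)` have upper density at least `δ c^(3^n - 1) - ε`. So for a given
  (arbitrary) set of curves, at most `4 / ε²` of the fields are exceptions; in particular at most `4 / ε²`
  of all the pure cubic fields (`n = 1`), where the bound is `δ c² - ε`.
* **The whole family.** For all finite `J` as above the `D` such that `m_ρ(E_D) = 0` for all the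
  two-dimensional `ρ` of `Gal(F_d / ℚ)`, for all `d ∈ J`, have lower density at least
  `c ^ (|J| (3^n - 1))`.

There is no condition on the rank of `E_D(ℚ)` here: the curves in `A` can have any rank.

The joint law of the cubic twists (for `D` prime to the multipliers) and the arithmetic of the twists are
those of the starting project R432 (R432/JG, helper432 and others; N. B. `MP_7cad78_nt/AllSubfieldsRankZero`
is about curves of rank zero over all the subfields of `F_d`, for prime numbers `d_i`). The passage to dense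
sets is the second moment method, after helper428; see also `MP_6073f3_nt/DenseSetsOfTwists`.
-/

set_option autoImplicit false

open scoped Classical
open Filter Topology

namespace Pool.Agent.Results.MP_775b3b_nt.AlmostAllRadicalFields

open Run7.h460.QD.RepQ (mult)

/-- The family: `D` is squarefree, prime to `3`, not `±1` modulo `9`, and has exactly one prime factor
congruent to `2` modulo `3`. -/
def Family (D : ℕ) : Prop :=
  Squarefree D ∧ ¬ 3 ∣ D ∧ D % 9 ≠ 1 ∧ D % 9 ≠ 8 ∧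
    ∃ q : ℕ, q.Prime ∧ q % 3 = 2 ∧ q ∣ D ∧ ∀ p : ℕ, p.Prime → p ∣ D → p ≠ q → p % 3 = 1

/-- The number of the `D ≤ X` of the family that belong to `A`. -/
noncomputable def count (A : Set ℕ) (X : ℕ) : ℕ :=
  ((Finset.Icc 1 X).filter fun D => Family D ∧ D ∈ A).card

/-- The upper density of `A` in the family is at least `δ`. -/
def UpperDensity (A : Set ℕ) (δ : ℝ) : Prop :=
  ∀ ε : ℝ, 0 < ε → ∃ᶠ X : ℕ in atTop, (δ - ε) * (count Set.univ X : ℝ) ≤ (count A X : ℝ)

/-- `c = ∏_{i ≥ 1} (1 - 3^{-i})`. -/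
noncomputable def c : ℝ := ∏' i : ℕ, (1 - (1 / 3 : ℝ) ^ (i + 1))

/-- The cube-free part of `n`: the exponents are reduced modulo `3`. -/
noncomputable def cubeFreePart (n : ℕ) : ℕ := n.factorization.prod fun p e => p ^ (e % 3)

/-- The number `∏ d_i ^ (t_i)`, with exponents `0`, `1`, `2`. -/
def power {n : ℕ} (d : Fin n → ℕ) (t : Fin n → ZMod 3) : ℕ := ∏ i, d i ^ (t i).val

/-- All prime factors of the `d_i` are `1` modulo `9`, and the `d_i` are independent modulo cubes. -/
def Admissible {n : ℕ} (d : Fin n → ℕ) : Prop :=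
  (∀ i, d i ≠ 0 ∧ ∀ p : ℕ, p.Prime → p ∣ d i → p % 9 = 1) ∧
    ∀ t : Fin n → ZMod 3, t ≠ 0 → cubeFreePart (power d t) ≠ 1

/-- The fields `F_d` and `F_{d'}` are linearly disjoint over `ℚ(ω)`: no nontrivial product of powers of the
`d_i` is a product of powers of the `d'_i` and a cube. -/
def LinearlyDisjoint {n : ℕ} (d d' : Fin n → ℕ) : Prop :=
  ∀ t t' : Fin n → ZMod 3, t ≠ 0 → t' ≠ 0 →
    cubeFreePart (power d t) ≠ cubeFreePart (power d' t')

/-- `F` is the field `F_d = ℚ(ω, ∛d_1, ..., ∛d_n)`. -/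
def IsRadicalField {n : ℕ} (d : Fin n → ℕ) (F : Type) [Field F] : Prop :=
  ∃ (ω : F) (x : Fin n → F), ω ^ 2 + ω + 1 = 0 ∧ (∀ i, x i ^ 3 = (d i : F)) ∧
    ∀ S : Subfield F, ω ∈ S → (∀ i, x i ∈ S) → S = ⊤

section rep

variable {F : Type} [Field F] [CharZero F] {V : Type} [AddCommGroup V] [Module ℂ V]

/-- The representation is irreducible. -/
def IsIrreducible (ρ : Representation ℂ (F ≃ₐ[ℚ] F) V) : Prop :=
  ∀ W : Submodule ℂ V, (∀ g : F ≃ₐ[ℚ] F, ∀ w ∈ W, ρ g w ∈ W) → W = ⊥ ∨ W = ⊤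

/-- The representation is not trivial on the automorphisms which fix the third roots of unity. -/
def IsNontrivial (ρ : Representation ℂ (F ≃ₐ[ℚ] F) V) : Prop :=
  ∃ g : F ≃ₐ[ℚ] F, (∀ z : F, z ^ 2 + z + 1 = 0 → g z = z) ∧ ρ g ≠ 1

end rep

/-- `m_ρ(E_D) = 0` for all the irreducible representations `ρ` of `Gal(F_d / ℚ)` which are not trivial on
`Gal(F_d / ℚ(ω))`. -/
def AllZero {n : ℕ} (d : Fin n → ℕ) (D : ℕ) : Prop :=
  ∀ (F : Type) [Field F] [NumberField F], IsRadicalField d F →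
    ∀ (V : Type) [AddCommGroup V] [Module ℂ V] (ρ : Representation ℂ (F ≃ₐ[ℚ] F) V),
      IsIrreducible ρ → IsNontrivial ρ → mult F D ρ = 0

section proof

open Run7.h460.JL.Mix (cn UD)
open Run7.h460.QD.Q (SC cf IsNine cn_card cn_univ Indep Disj tw mem_SC)
open Pool.Agent.R432.JG (Cl cl_iff)
open Pool.Agent.Y703.CT (NoSplit)

theorem fam_iff (D : ℕ) : Family D ↔ Cl ∅ D := by
  rw [cl_iff]
  unfold Family
  simp

theorem empty_ok : ∀ q ∈ (∅ : Finset ℕ), q.Prime ∧ q % 9 = 1 := fun q hq =>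
  absurd hq (Finset.notMem_empty q)

theorem count_eq (A : Set ℕ) (X : ℕ) : (count A X : ℝ) = cn (SC ∅ X) A :=
  (cn_card fam_iff A X).symm

theorem count_univ (X : ℕ) : (count Set.univ X : ℝ) = ((SC ∅ X).card : ℝ) :=
  (count_eq _ _).trans (cn_univ X)

theorem ud_iff (A : Set ℕ) (δ : ℝ) : UpperDensity A δ ↔ UD (SC ∅) A δ := by
  unfold UpperDensity UD
  simp only [count_eq, cn_univ]

theorem no_inv {F : Type} [Field F] [CharZero F] {V : Type} [AddCommGroup V] [Module ℂ V]
    (ρ : Representation ℂ (F ≃ₐ[ℚ] F) V) (h1 : IsIrreducible ρ) (h2 : IsNontrivial ρ) {ω : F}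
    (hω : ω ^ 2 + ω + 1 = 0) (v : V) (hv : ∀ g : F ≃ₐ[ℚ] F, g ω = ω → ρ g v = v) : v = 0 := by
  let W : Submodule ℂ V :=
    { carrier := {w | ∀ g : F ≃ₐ[ℚ] F, (∀ z : F, z ^ 2 + z + 1 = 0 → g z = z) → ρ g w = w}
      add_mem' := by
        intro a b ha hb g hg
        rw [map_add, ha g hg, hb g hg]
      zero_mem' := fun g _ => map_zero _
      smul_mem' := by
        intro r a ha g hg
        rw [map_smul, ha g hg] }
  have hW : ∀ g : F ≃ₐ[ℚ] F, ∀ w ∈ W, ρ g w ∈ W := by
    intro g w hw g' hg'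
    have h3 := hw (g⁻¹ * g' * g) (fun z hz => by
      have h4 : (g z) ^ 2 + g z + 1 = 0 := by
        rw [← map_pow, ← map_add, ← map_one g, ← map_add, hz, map_zero]
      show g⁻¹ (g' (g z)) = z
      rw [hg' _ h4]
      exact g.symm_apply_apply z)
    have h5 : ρ (g * (g⁻¹ * g' * g)) w = ρ g w := by
      rw [map_mul]
      show ρ g (ρ (g⁻¹ * g' * g) w) = ρ g w
      rw [h3]
    have h6 : g * (g⁻¹ * g' * g) = g' * g := by group
    rw [h6, map_mul] at h5
    exact h5
  have hvW : v ∈ W := fun g hg => hv g (hg ω hω)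
  rcases h1 W hW with h3 | h3
  · rw [h3] at hvW
    exact (Submodule.mem_bot ℂ).1 hvW
  · exfalso
    obtain ⟨g, hg, hne⟩ := h2
    apply hne
    ext w
    have hw : w ∈ W := by
      rw [h3]
      trivial
    exact hw g hg

theorem zero_of {n : ℕ} {d : Fin n → ℕ} (hd : Admissible d) {D : ℕ} (hD : Cl ∅ D)
    (h : ∀ t : Fin n → ZMod 3, t ≠ 0 → NoSplit (cf (D * tw d t))) : AllZero d D := by
  rintro F _ _ ⟨ω, x, hω, hx, hgen⟩ V _ _ ρ h1 h2
  exact Run7.h460.QD.Q.mult_of hD hd.1 h hω x hx hgen ρ (no_inv ρ h1 h2 hω)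

end proof

open Run7.h460.JL.Mix (cn UD)
open Run7.h460.QD.Q (SC mem_SC)

/-- **Main theorem.** -/
theorem result (n : ℕ) :
    (0.56 : ℝ) < c ∧ Tendsto (fun X => count Set.univ X) atTop atTop ∧
    -- dense sets: at most `4 / ε²` exceptional fields
    (∀ (A : Set ℕ) (δ : ℝ), UpperDensity A δ → ∀ ε : ℝ, 0 < ε →
      ∀ J : Finset (Fin n → ℕ), (∀ d ∈ J, Admissible d) →
      (∀ d ∈ J, ∀ d' ∈ J, d ≠ d' → LinearlyDisjoint d d') → 4 / ε ^ 2 < J.card →
      ∃ d ∈ J, UpperDensity {D | D ∈ A ∧ AllZero d D} (δ * c ^ (3 ^ n - 1) - ε)) ∧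
    -- the whole family
    ∀ J : Finset (Fin n → ℕ), (∀ d ∈ J, Admissible d) →
      (∀ d ∈ J, ∀ d' ∈ J, d ≠ d' → LinearlyDisjoint d d') → ∀ ε : ℝ, 0 < ε → ∀ᶠ X in atTop,
      (c ^ (J.card * (3 ^ n - 1)) - ε) * (count Set.univ X : ℝ) ≤
        (count {D | ∀ d ∈ J, AllZero d D} X : ℝ) := by
  refine ⟨Pool.Agent.R432.JG.c3_gt, ?_, ?_, ?_⟩
  · rw [← tendsto_natCast_atTop_iff (R := ℝ)]
    refine (Run7.h460.QD.Q.card_tendsto empty_ok).congr fun X => ?_
    rw [count_univ]
  · intro A δ hA ε hε J hJ hdis hc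
    obtain ⟨d, hd, h⟩ := Run7.h460.QD.Q.fam_nat empty_ok hJ hdis ((ud_iff A δ).1 hA) hε hc
    refine ⟨d, hd, (ud_iff _ _).2 ?_⟩
    have e : δ * c ^ (3 ^ n - 1) - ε = Pool.Agent.Y703.CX.c3 ^ (3 ^ n - 1) * δ - ε := by
      show δ * c ^ (3 ^ n - 1) - ε = c ^ (3 ^ n - 1) * δ - ε
      ring
    rw [e]
    exact Run7.h460.QD.Q.UD.congr' h fun X D hD hDA => ⟨hDA.1, zero_of (hJ d hd) (mem_SC hD) hDA.2⟩
  · intro J hJ hdis ε hε
    have h := Run7.h460.QD.Q.fam_law empty_ok hJ hdis
    have h1 := h.eventually (lt_mem_nhds (show Pool.Agent.Y703.CX.c3 ^ (J.card * (3 ^ n - 1)) - ε <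
      Pool.Agent.Y703.CX.c3 ^ (J.card * (3 ^ n - 1)) by linarith))
    filter_upwards [h1, Pool.Agent.R432.JG.ev_pos empty_ok] with X hX hX0
    have hX0' : (0 : ℝ) < ((SC ∅ X).card : ℝ) := hX0
    rw [lt_div_iff₀ hX0'] at hX
    rw [count_univ, count_eq]
    refine hX.le.trans (Run7.h460.QD.Q.cn_le fun D hD hg d hd => ?_)
    exact zero_of (hJ d hd) (mem_SC hD) (hg d hd)

end Pool.Agent.Results.MP_775b3b_nt.AlmostAllRadicalFields
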