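import Pool.Agent.Run7.h23.Idl
import Pool.Agent.Run7.h23.Mq.Base

/-!
# All Artin twists of infinitely many ramified 2-extensions of `ℚ` have rank zero, for the same curves

Let `T` be a finite set of primes and `K₀` any finite Galois extension of `ℚ`.

Theorem. There are a finite set `S` of primes (`1` modulo `8`, not in `T`, completely split in `K₀`) and, for every
`t` in `{1, -1, 2, -2}`, a positive proportion of ALL elliptic curves `E : y ^ 2 = x ^ 3 + A x + B` over `ℚ`, ordered
by height as in the problem, with the following property. Let `K` be ANY finite Galois extension of `ℚ` of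
2-power degree such that `2` is unramified in `K`, the primes `q` in `S` are unramified in `K` with residue
fields of at most `q ^ 2` elements, and every other ramified prime is in `T` or is a prime modulo which
`x ^ 3 + A x + B` has no zero. Let `D` be ANY set of nonzero integers which is closed under products and contains `1`,
and `e ≠ 0`, such that for all `d` in `D` each prime divisor of `e d` is in `T` or is a prime modulo which the cubic
polynomial has no zero, and `t e d` is not of the form `4 ^ k (4 m + 3)`. Let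

  `F = K(√ d, d ∈ D)`.

Then `E ^ e (F) = 0`, and `m_ρ(E ^ e) = 0` for EVERY representation `ρ` of `Gal(F / ℚ)`, where `E ^ e` is the
quadratic twist (`e = 1` is allowed if `t = 1`).

So for one set of curves of positive density ALL the Artin twists of ALL these fields are settled at the
same time: the proportion, in the problem's ordering, of the curves with `m_ρ(E) = 0` for all the infinitely
many irreducible `ρ` together is positive. The multiplicity zero is what Q1 predicts if `ρ` is not self-dual, and if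
`w_E(ρ) = 1`. (For self-dual `ρ` the multiplicity zero implies `w_E(ρ) = 1` under the parity conjecture.)

What is new. The starting theorem `MP_775b3b_nt.PositiveProportionUnramified` is about one given field `F` in which `2`
is unramified, and the curves depend on `F`; `MP_78d38b_nt.UniformTwoExtensions` (helper23) has `E ^ e (K) = 0` for all the
`K` above, in which `2` is unramified, too. In the fields `F` here the prime `2` may be ramified: the completions of `F`
at `2` are contained in unramified extensions of `ℚ_2(√ 2)`, `ℚ_2(√ -2)` or, if `t e` is even, `ℚ_2(√ -1)`; so also the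
Artin representations with conductor divisible by `2` are reached. (For example, `t = 1`, `e = 1`, and `D` generated
by `2` or by `-2` and any `d = 1` modulo `4` all prime divisors of which are in `T` or as above, for `2` in `T`; and
`t = 2`, `e = 1`, `D` generated by `-1` and such `d`.) Proof: `E ^ e (K) = 0` for all the twists by `e D`
(`Run7.h23.finalU`), and if `E ^ c (L) = 0` and `E ^ (c d) (L) = 0` then `E ^ c (L(√ d)) = 0`: for a point `P` and the
automorphism `σ` the point `P + σ P` is rational over `L`, hence zero, and `σ P = - P` gives a point of the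
twist by `d`. There are no points of finite order either, so this works for the integral groups.

The engine is `Pool/Agent/Run7/h23` (helper23) on top of the projects PQ and PV of `N922` (lattices, reduction,
reciprocity, linear algebra over the field with two elements).
-/

set_option autoImplicit false
set_option linter.all false

namespace Pool.Agent.Results.MP_775b3b_nt.ArtinTwistsOfAllFields

open Filter NumberField IsDedekindDomain
open scoped Classical TensorProduct

/-- The equation `y ^ 2 = x ^ 3 + A x + B` with integers `A`, `B` defines an elliptic curve, and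
there is no prime `p` with `p ^ 4 ∣ A` and `p ^ 6 ∣ B`. Every elliptic curve over `ℚ` is isomorphic to
exactly one of these. -/
structure IsMinimal (A B : ℤ) : Prop where
  elliptic : 4 * A ^ 3 + 27 * B ^ 2 ≠ 0
  minimal : ∀ p : ℕ, p.Prime → ¬ ((p : ℤ) ^ 4 ∣ A ∧ (p : ℤ) ^ 6 ∣ B)

/-- The height. -/
def height (p : ℤ × ℤ) : ℤ := max (4 * |p.1| ^ 3) (27 * p.2 ^ 2)

/-- The set of all elliptic curves over `ℚ` of height at most `X`. -/
def Curves (X : ℕ) : Set (ℤ × ℤ) := {p | IsMinimal p.1 p.2 ∧ height p ≤ X}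

/-- The curve `y ^ 2 = x ^ 3 + A x + B` over `ℚ`. -/
def curve (p : ℤ × ℤ) : WeierstrassCurve ℚ := ⟨0, 0, 0, (p.1 : ℚ), (p.2 : ℚ)⟩

/-- The quadratic twist by `d`: `y ^ 2 = x ^ 3 + A d ^ 2 x + B d ^ 3`. -/
def twist (p : ℤ × ℤ) (d : ℤ) : ℤ × ℤ := (p.1 * d ^ 2, p.2 * d ^ 3)

section mult

variable (F : Type) [Field F] [CharZero F] (p : ℤ × ℤ)

/-- The group `E(F)`. -/
def Pts : Type := ((curve p).baseChange F).toAffine.Point

noncomputable instance instPts : AddCommGroup (Pts F p) :=
  (inferInstance : AddCommGroup ((curve p).baseChange F).toAffine.Point)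

/-- The action of `g` in the Galois group on `E(F)`. -/
noncomputable def act (g : F ≃ₐ[ℚ] F) : Pts F p →+ Pts F p :=
  WeierstrassCurve.Affine.Point.map (W' := (curve p).toAffine) g.toAlgHom

/-- The complex vector space `V_E = E(F) ⊗ ℂ`. -/
def VE : Type := ℂ ⊗[ℤ] Pts F p

noncomputable instance instVE : AddCommGroup (VE F p) :=
  (inferInstance : AddCommGroup (ℂ ⊗[ℤ] Pts F p))

noncomputable instance instVE' : Module ℂ (VE F p) :=
  (inferInstance : Module ℂ (ℂ ⊗[ℤ] Pts F p))

/-- The action of `g` on `V_E`. -/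
noncomputable def gal (g : F ≃ₐ[ℚ] F) : VE F p →ₗ[ℂ] VE F p :=
  LinearMap.baseChange ℂ (act F p g).toIntLinearMap

/-- The space `Hom_G(ρ, V_E)`. -/
def HomG {V : Type} [AddCommGroup V] [Module ℂ V] (ρ : Representation ℂ (F ≃ₐ[ℚ] F) V) :
    Submodule ℂ (V →ₗ[ℂ] VE F p) where
  carrier := {f | ∀ (g : F ≃ₐ[ℚ] F) (v : V), f (ρ g v) = gal F p g (f v)}
  add_mem' := by
    intro f f' h h' g v
    rw [LinearMap.add_apply, LinearMap.add_apply, h g v, h' g v, map_add]
  zero_mem' := by
    intro g v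
    rw [LinearMap.zero_apply, LinearMap.zero_apply, map_zero]
  smul_mem' := by
    intro c f h g v
    rw [LinearMap.smul_apply, LinearMap.smul_apply, h g v, map_smul]

/-- The multiplicity `m_ρ(E) = dim Hom_G(ρ, V_E)`. -/
noncomputable def mult {V : Type} [AddCommGroup V] [Module ℂ V]
    (ρ : Representation ℂ (F ≃ₐ[ℚ] F) V) : Cardinal := Module.rank ℂ (HomG F p ρ)

end mult

/-- `E(F) = 0`, and all multiplicities `m_ρ(E)` are zero. -/
structure AllZero (F : Type) [Field F] [CharZero F] (p : ℤ × ℤ) : Prop where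
  trivial : Subsingleton (Pts F p)
  zero : ∀ (V : Type) [AddCommGroup V] [Module ℂ V] (ρ : Representation ℂ (F ≃ₐ[ℚ] F) V),
    mult F p ρ = 0

/-- Every prime divisor `q` of `d` is in `T`, or `x ^ 3 + A x + B` has no zero modulo `q`. -/
def Admissible (T : Finset ℕ) (p : ℤ × ℤ) (d : ℤ) : Prop :=
  ∀ q : ℕ, q.Prime → (q : ℤ) ∣ d → q ∈ T ∨ ∀ z : ℤ, ¬ (q : ℤ) ∣ z ^ 3 + p.1 * z + p.2

/-- The integers `4 ^ k (4 m + 3)`. -/
def Excluded (e : ℤ) : Prop := ∃ (k : ℕ) (m : ℤ), e = 4 ^ k * (4 * m + 3)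

/-- The prime number `q` splits completely in `K`: for every prime ideal `𝔭` over `q`, `q` is not in
`𝔭 ^ 2` and every integer of `K` is congruent to a rational integer modulo `𝔭`. -/
def SplitsCompletely (K : Type) [Field K] [NumberField K] (q : ℕ) : Prop :=
  ∀ 𝔭 : Ideal (𝓞 K), 𝔭.IsPrime → (q : 𝓞 K) ∈ 𝔭 →
    (q : 𝓞 K) ∉ 𝔭 ^ 2 ∧ ∀ y : 𝓞 K, ∃ z : ℤ, y - (z : 𝓞 K) ∈ 𝔭

/-- The conditions on the extension `K` of `ℚ` for the curve `p`: the degree is a power of two, `2` is
unramified, the primes `q` in `S` are unramified with residue fields of at most `q ^ 2` elements, and for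
every other ramified prime `q` which is not in `T` the polynomial `x ^ 3 + A x + B` has no zero modulo `q`. -/
structure Allowed (S T : Finset ℕ) (p : ℤ × ℤ) (K : Type) [Field K] [NumberField K] : Prop where
  deg : ∃ n : ℕ, Module.finrank ℚ K = 2 ^ n
  two : ∀ 𝔭 : Ideal (𝓞 K), 𝔭.IsPrime → (2 : 𝓞 K) ∉ 𝔭 ^ 2
  mem : ∀ q ∈ S, ∀ 𝔭 : Ideal (𝓞 K), 𝔭.IsPrime → (q : 𝓞 K) ∈ 𝔭 →
    (q : 𝓞 K) ∉ 𝔭 ^ 2 ∧ Nat.card (𝓞 K ⧸ 𝔭) ≤ q ^ 2
  ram : ∀ q : ℕ, q.Prime → q ∉ T → (∃ 𝔭 : Ideal (𝓞 K), 𝔭.IsPrime ∧ (q : 𝓞 K) ∈ 𝔭 ^ 2) →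
    ∀ z : ℤ, ¬ (q : ℤ) ∣ z ^ 3 + p.1 * z + p.2

/-- The conditions on the set `D` and the twist `e`: `D` consists of nonzero integers, it contains `1` and is closed
under products, and all the products `e d`, `d ∈ D`, are admissible and `t e d` is not excluded. -/
def Twists (T : Finset ℕ) (t : ℤ) (p : ℤ × ℤ) (e : ℤ) (D : Submonoid ℤ) : Prop :=
  e ≠ 0 ∧ ∀ d ∈ D, d ≠ 0 ∧ Admissible T p (e * d) ∧ ¬ Excluded (t * (e * d))

/-- The field `F` is generated over `K` by the square roots of the elements of `D` which it contains. -/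
def GeneratedByRoots (K F : Type) [Field K] [Field F] [Algebra K F] (D : Submonoid ℤ) : Prop :=
  IntermediateField.adjoin K {x : F | ∃ d ∈ D, x ^ 2 = (d : F)} = ⊤

/-- The property of the curve `p` in the theorem: for all the fields `K`, all the sets `D`, all the extensions
`F` of `K` generated by square roots of elements of `D`, and all the twists by `e`, there are no points over `F`, and
all the multiplicities of the representations of the Galois group of `F` are zero. -/
def Uniform (S T : Finset ℕ) (t : ℤ) (p : ℤ × ℤ) : Prop :=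
  ∀ (K : Type) [Field K] [NumberField K] [IsGalois ℚ K], Allowed S T p K →
    ∀ (D : Submonoid ℤ) (e : ℤ), Twists T t p e D →
    ∀ (F : Type) [Field F] [NumberField F] [Algebra K F], GeneratedByRoots K F D →
      AllZero F (twist p e)

theorem crv_iff (X : ℕ) (p : ℤ × ℤ) : Pool.Agent.N922.PQ.Crv X p.1 p.2 ↔ p ∈ Curves X := by
  constructor
  · rintro ⟨h1, h2, h3, h4⟩
    exact ⟨⟨h1, h2⟩, max_le h3 h4⟩
  · rintro ⟨⟨h1, h2⟩, h3⟩
    exact ⟨h1, h2, (le_max_left _ _).trans h3, (le_max_right _ _).trans h3⟩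

theorem nonempty {X : ℕ} (hX : 27 ≤ X) : ((1, 1) : ℤ × ℤ) ∈ Curves X := by
  refine ⟨⟨by norm_num, ?_⟩, ?_⟩
  · rintro p hp ⟨h, -⟩
    have h1 : ((p : ℤ)) ∣ 1 := (dvd_pow_self (p : ℤ) (by norm_num)).trans h
    have h2 : p ∣ 1 := by exact_mod_cast h1
    exact hp.one_lt.ne' (Nat.dvd_one.1 h2)
  · have : height ((1, 1) : ℤ × ℤ) = 27 := by
      simp [height]
    rw [this]
    exact_mod_cast hX

theorem excl_iff (e : ℤ) : Excluded e ↔ Run7.h23.Bd e := by
  constructor
  · rintro ⟨k, m, h⟩
    exact ⟨k, 4 * m + 3, h, by omega⟩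
  · rintro ⟨k, e', h, h3⟩
    refine ⟨k, e' / 4, ?_⟩
    rw [h]
    congr 1
    omega

/-- The set `T` as a set of integers. -/
noncomputable def toZ (T : Finset ℕ) : Finset ℤ :=
  (T.image fun q : ℕ => (q : ℤ)).filter fun P => Pool.Agent.N922.PQ.IsPr P

theorem mem_toZ {T : Finset ℕ} {q : ℕ} (hq : q ∈ T) (hp : q.Prime) : (q : ℤ) ∈ toZ T := by
  rw [toZ, Finset.mem_filter]
  exact ⟨Finset.mem_image_of_mem _ hq, by exact_mod_cast hp.pos, Nat.prime_iff_prime_int.1 hp⟩

theorem adm_of {T : Finset ℕ} {p : ℤ × ℤ} {d : ℤ} (h : Admissible T p d) :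
    Run7.h23.AdmC (toZ T) p.1 p.2 d := by
  intro P hP hd
  obtain ⟨q, rfl⟩ : ∃ q : ℕ, P = (q : ℤ) := ⟨P.toNat, (Int.toNat_of_nonneg hP.1.le).symm⟩
  have hq : q.Prime := Nat.prime_iff_prime_int.2 hP.2
  rcases h q hq hd with h1 | h1
  · exact Or.inl (mem_toZ h1 hq)
  · exact Or.inr h1

theorem mok_of {S : Finset ℤ} (hS : ∀ Q ∈ S, Pool.Agent.N922.PQ.IsPr Q) {T : Finset ℕ} {p : ℤ × ℤ}
    {K : Type} [Field K] [NumberField K] (h : Allowed (S.image Int.toNat) T p K) :
    Run7.h23.Mok K (𝓞 K) S (toZ T) p.1 p.2 where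
  two := Pool.Agent.N922.PQ.val_two_of h.two
  sun Q hQ w hw := by
    rw [Run7.h23.val_iff_sq Q w hw]
    have hQ' : ((Q.toNat : ℕ) : ℤ) = Q := Int.toNat_of_nonneg (hS Q hQ).1.le
    have h1 := (h.mem Q.toNat (Finset.mem_image_of_mem _ hQ) w.asIdeal w.isPrime (by
      have h2 : ((Q.toNat : ℕ) : 𝓞 K) = ((Q : ℤ) : 𝓞 K) := by
        conv_rhs => rw [← hQ']
        rw [Int.cast_natCast]
      rw [h2]
      exact hw)).1
    have h2 : ((Q.toNat : ℕ) : 𝓞 K) = ((Q : ℤ) : 𝓞 K) := by
      conv_rhs => rw [← hQ']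
      rw [Int.cast_natCast]
    rwa [h2] at h1
  sres Q hQ w hw := by
    have hQ' : ((Q.toNat : ℕ) : ℤ) = Q := Int.toNat_of_nonneg (hS Q hQ).1.le
    have h2 : ((Q.toNat : ℕ) : 𝓞 K) = ((Q : ℤ) : 𝓞 K) := by
      conv_rhs => rw [← hQ']
      rw [Int.cast_natCast]
    have h1 := (h.mem Q.toNat (Finset.mem_image_of_mem _ hQ) w.asIdeal w.isPrime (by
      rw [h2]
      exact hw)).2
    have hq : Q.toNat.Prime := Nat.prime_iff_prime_int.2 (by rw [hQ']; exact (hS Q hQ).2)
    exact Run7.h23.res_pow hq w (by rw [hQ']; exact hw) h1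
  ram P hP hPT hw z := by
    obtain ⟨w, hw, hne⟩ := hw
    rw [Ne, Run7.h23.val_iff_sq P w hw, not_not] at hne
    obtain ⟨q, rfl⟩ : ∃ q : ℕ, P = (q : ℤ) := ⟨P.toNat, (Int.toNat_of_nonneg hP.1.le).symm⟩
    have hq : q.Prime := Nat.prime_iff_prime_int.2 hP.2
    refine h.ram q hq (fun h' => hPT (mem_toZ h' hq)) ⟨w.asIdeal, w.isPrime, ?_⟩ z
    rw [Int.cast_natCast] at hne
    exact hne


/-- From the base field `K` to `F`. -/
theorem lift_zero {K : Type} [Field K] [NumberField K] {p : ℤ × ℤ}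
    (hE : 4 * p.1 ^ 3 + 27 * p.2 ^ 2 ≠ 0) {D : Submonoid ℤ} {e : ℤ} (he : e ≠ 0)
    (hD : ∀ d ∈ D, d ≠ 0)
    (h : ∀ d ∈ D, Subsingleton ((Pool.Agent.N874.PP.sW ((p.1 * (e * d) ^ 2 : ℤ) : K)
      ((p.2 * (e * d) ^ 3 : ℤ) : K)).baseChange K).toAffine.Point)
    {F : Type} [Field F] [NumberField F] [Algebra K F] (hF : GeneratedByRoots K F D) :
    Subsingleton (Pts F (twist p e)) := by
  haveI : FiniteDimensional K F := FiniteDimensional.right ℚ K F
  have hE' : 4 * (p.1 * e ^ 2) ^ 3 + 27 * (p.2 * e ^ 3) ^ 2 ≠ 0 := by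
    have : 4 * (p.1 * e ^ 2) ^ 3 + 27 * (p.2 * e ^ 3) ^ 2 =
        (4 * p.1 ^ 3 + 27 * p.2 ^ 2) * e ^ 6 := by ring
    rw [this]
    exact mul_ne_zero hE (pow_ne_zero 6 he)
  have hK : ∀ d ∈ D, Run7.h23.Mq.NP K (((p.1 * e ^ 2) * d ^ 2 : ℤ) : K)
      (((p.2 * e ^ 3) * d ^ 3 : ℤ) : K) := by
    intro d hd x y hxy
    have hs := h d hd
    set a : K := ((p.1 * (e * d) ^ 2 : ℤ) : K) with ha
    set b : K := ((p.2 * (e * d) ^ 3 : ℤ) : K) with hb
    have ha' : (((p.1 * e ^ 2) * d ^ 2 : ℤ) : K) = a := by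
      rw [ha]
      congr 1
      ring
    have hb' : (((p.2 * e ^ 3) * d ^ 3 : ℤ) : K) = b := by
      rw [hb]
      congr 1
      ring
    rw [ha', hb'] at hxy
    have hΔ : (Pool.Agent.N874.PP.sW a b).Δ ≠ 0 := by
      have h1 : (Pool.Agent.N874.PP.sW a b).Δ = -16 * (4 * a ^ 3 + 27 * b ^ 2) := by
        simp only [Pool.Agent.N874.PP.sW, WeierstrassCurve.Δ, WeierstrassCurve.b₂,
          WeierstrassCurve.b₄, WeierstrassCurve.b₆, WeierstrassCurve.b₈]
        ring
      have h2 : 4 * a ^ 3 + 27 * b ^ 2 = (((4 * p.1 ^ 3 + 27 * p.2 ^ 2) * (e * d) ^ 6 : ℤ) : K) := by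
        rw [ha, hb]
        push_cast
        ring
      rw [h1, h2]
      refine mul_ne_zero (by norm_num) ?_
      exact_mod_cast mul_ne_zero hE (pow_ne_zero 6 (mul_ne_zero he (hD d hd)))
    haveI : (Pool.Agent.N874.PP.sW a b).IsElliptic := ⟨hΔ.isUnit⟩
    haveI : ((Pool.Agent.N874.PP.sW a b).baseChange K).IsElliptic :=
      inferInstanceAs ((Pool.Agent.N874.PP.sW a b).map (algebraMap K K)).IsElliptic
    have heq : ((Pool.Agent.N874.PP.sW a b).baseChange K).toAffine.Equation x y := by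
      rw [WeierstrassCurve.Affine.equation_iff]
      simp only [Pool.Agent.N874.PP.sW, WeierstrassCurve.baseChange, WeierstrassCurve.map, map_zero]
      simp only [Algebra.algebraMap_self, RingHom.id_apply]
      linear_combination hxy
    have hns : ((Pool.Agent.N874.PP.sW a b).baseChange K).toAffine.Nonsingular x y :=
      (WeierstrassCurve.Affine.equation_iff_nonsingular).1 heq
    have h3 := hs.elim (.some x y hns) 0
    exact absurd h3 (by
      intro h4
      cases h4)
  have hNP := Run7.h23.Mq.multi D (p.1 * e ^ 2) (p.2 * e ^ 3) hE' hD hK hF 1 D.one_mem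
  refine ⟨fun P Q => ?_⟩
  have key : ∀ P : Pts F (twist p e), P = (0 : ((curve (twist p e)).baseChange F).toAffine.Point) := by
    intro P
    change ((curve (twist p e)).baseChange F).toAffine.Point at P
    rcases P with _ | ⟨x, y, h'⟩
    · rfl
    · exfalso
      refine hNP x y ?_
      have h6 := (WeierstrassCurve.Affine.equation_iff x y).1 h'.1
      simp only [curve, twist, WeierstrassCurve.baseChange, WeierstrassCurve.map, map_zero] at h6
      push_cast at h6 ⊢
      simp only [map_mul, map_pow, map_intCast] at h6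
      linear_combination h6
  rw [key P, key Q]

/-- For every finite set `T` of primes and every finite Galois extension `K₀` of `ℚ` there is a finite
set `S` of primes, `1` modulo `8`, not in `T` and completely split in `K₀`, such that for every `t` in
`{1, -1, 2, -2}` there is `c > 0` such that for all large `X` at least `c` times the number of all elliptic
curves `E` over `ℚ` of height at most `X` have the following property: for EVERY finite Galois extension `K` of
`ℚ` of 2-power degree in which `2` is unramified, the primes `q` in `S` are unramified with residue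
fields of at most `q ^ 2` elements, and every other ramified prime is in `T` or is a prime modulo which
the cubic polynomial has no zero, for EVERY multiplicatively closed set `D` of nonzero integers with `1 ∈ D` and
every `e ≠ 0` such that for all `d ∈ D` each prime divisor of `e d` is in `T` or is such a prime and `t e d` is not of
the form `4 ^ k (4 m + 3)`, and for EVERY extension `F` of `K` generated by square roots of elements of `D`: the twist
`E ^ e` has `E ^ e (F) = 0`, and `m_ρ(E ^ e) = 0` for all representations `ρ` of the Galois group of `F / ℚ`. -/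
theorem result (T : Finset ℕ) (K₀ : Type) [Field K₀] [NumberField K₀] [IsGalois ℚ K₀] :
    (∀ X : ℕ, (Curves X).Finite) ∧
    ∃ S : Finset ℕ, (∀ q ∈ S, q.Prime ∧ q % 8 = 1 ∧ q ∉ T ∧ SplitsCompletely K₀ q) ∧
    ∀ t : ℤ, (t = 1 ∨ t = -1 ∨ t = 2 ∨ t = -2) →
    ∃ c : ℝ, 0 < c ∧ ∀ᶠ X : ℕ in atTop,
      0 < (Curves X).ncard ∧
      c * ((Curves X).ncard : ℝ) ≤ (({p ∈ Curves X | Uniform S T t p}).ncard : ℝ) := by
  have hset : ∀ X : ℕ, Curves X = {p : ℤ × ℤ | Pool.Agent.N922.PQ.Crv X p.1 p.2} := by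
    intro X
    ext p
    exact (crv_iff X p).symm
  have hfin : ∀ X : ℕ, (Curves X).Finite := fun X => by
    rw [hset]
    exact Pool.Agent.N922.PQ.crv_fin X
  refine ⟨hfin, ?_⟩
  obtain ⟨S, hS, hmain⟩ := Run7.h23.finalU (toZ T)
    (fun P hP => (Finset.mem_filter.1 hP).2) K₀ (𝓞 K₀)
  refine ⟨S.image Int.toNat, ?_, ?_⟩
  · intro q hq
    obtain ⟨Q, hQ, rfl⟩ := Finset.mem_image.1 hq
    obtain ⟨h1, h2, h3, h4⟩ := hS Q hQ
    have hQ' : ((Q.toNat : ℕ) : ℤ) = Q := Int.toNat_of_nonneg h1.1.le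
    have hp : Q.toNat.Prime := Nat.prime_iff_prime_int.2 (by rw [hQ']; exact h1.2)
    refine ⟨hp, by omega, fun h => h3 (by rw [← hQ']; exact mem_toZ h hp), ?_⟩
    intro 𝔭 h𝔭 hmem
    have hcast : ((Q.toNat : ℕ) : 𝓞 K₀) = ((Q : ℤ) : 𝓞 K₀) := by
      conv_rhs => rw [← hQ']
      rw [Int.cast_natCast]
    have hne : 𝔭 ≠ ⊥ := by
      rintro rfl
      rw [Ideal.mem_bot] at hmem
      exact hp.ne_zero (by exact_mod_cast hmem)
    let w : HeightOneSpectrum (𝓞 K₀) := ⟨𝔭, h𝔭, hne⟩
    have hw : Pool.Agent.N922.PQ.Ov Q w := by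
      show ((Q : ℤ) : 𝓞 K₀) ∈ 𝔭
      rw [← hcast]
      exact hmem
    obtain ⟨h5, h6⟩ := h4 w hw
    refine ⟨?_, h6⟩
    rw [hcast]
    exact (Run7.h23.val_iff_sq Q w hw).1 h5
  intro t ht
  obtain ⟨c, hc, X₀, h⟩ := hmain t ht
  refine ⟨c, hc, ?_⟩
  filter_upwards [eventually_ge_atTop (max X₀ 27)] with X hX
  refine ⟨(Set.ncard_pos (hfin X)).2 ⟨_, nonempty ((le_max_right _ _).trans hX)⟩, ?_⟩
  have h1 := (h X ((le_max_left _ _).trans hX)).2
  rw [← hset] at h1
  refine h1.trans ?_
  have h3 : {p : ℤ × ℤ | Pool.Agent.N922.PQ.Crv X p.1 p.2 ∧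
      Run7.h23.GoodU S (toZ T) t p} ⊆
      {p ∈ Curves X | Uniform (S.image Int.toNat) T t p} := by
    rintro p ⟨hp, hg⟩
    refine ⟨(crv_iff X p).1 hp, ?_⟩
    intro K _ _ _ hK D e hDe F _ _ _ hF
    obtain ⟨n, hn⟩ := hK.deg
    have k1 : Subsingleton (Pts F (twist p e)) := by
      refine lift_zero (K := K) hp.1 hDe.1 (fun d hd => (hDe.2 d hd).1) (fun d hd => ?_) hF
      obtain ⟨h1, h2, h3⟩ := hDe.2 d hd
      obtain ⟨-, hd', -⟩ := hg K (𝓞 K) n hn (mok_of (fun Q hQ => (hS Q hQ).1) hK) (e * d)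
        (mul_ne_zero hDe.1 h1) (adm_of h2) (by rwa [← excl_iff])
      exact hd'
    refine ⟨k1, ?_⟩
    intro V _ _ ρ
    -- the tensor product is zero
    have hz : ∀ x : VE F (twist p e), x = 0 := by
      intro x
      change ℂ ⊗[ℤ] Pts F (twist p e) at x
      induction x using TensorProduct.induction_on with
      | zero => rfl
      | tmul z P =>
        rw [Subsingleton.elim P 0, TensorProduct.tmul_zero]
        rfl
      | add x y hx hy =>
        rw [hx, hy]
        exact add_zero (0 : VE F (twist p e))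
    have hs : Subsingleton (HomG F (twist p e) ρ) := by
      refine ⟨fun f f' => ?_⟩
      apply Subtype.ext
      ext v
      rw [hz ((f : V →ₗ[ℂ] VE F (twist p e)) v), hz ((f' : V →ₗ[ℂ] VE F (twist p e)) v)]
    exact rank_subsingleton' ℂ _
  have h4 := Set.ncard_le_ncard h3 ((hfin X).subset fun p hp => hp.1)
  exact_mod_cast h4

end Pool.Agent.Results.MP_775b3b_nt.ArtinTwistsOfAllFields
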