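import Mathlib
import Pool.Agent.Run7.h318.CH.E5

/-!
# The multiplicities of the characters of 2-power order in `E(F) ⊗ ℂ`, `E` with full 2-torsion

Let `F / ℚ` be any finite Galois extension and `ρ` any one-dimensional complex representation of
`Gal(F / ℚ)` whose order is a power of two (for order at least four it is not self-dual, and the
problem predicts `m_ρ(E) = 0` for `100%` of the curves).

Theorem. In the families of the elliptic curves over `ℚ` with full rational 2-torsion the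
multiplicity `m_ρ` is bounded on average:
1. the average of `4 ^ m_ρ(E)` over all the elliptic curves `E / ℚ` with full rational 2-torsion,
ordered by height as in the problem, is bounded; in particular the proportion of the curves with
`m_ρ(E) ≥ M` is at most `C / 4 ^ M`;
2. the same holds for the curves `y² = x (x - a) (x - b)` with `(a, b)` in a square of side `H`,
uniformly over all the squares whose distance from the origin is at most a power of `H`;
3. for every `E : y² = x (x - a) (x - b)` and every real `c ≥ 1` the average of `c ^ m_ρ(E^d)` over the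
quadratic twists `E^d` with `d` in an interval of length `H` is bounded, uniformly over all the
intervals whose distance from the origin is at most a power of `H`.

The proof. Let `χ` be the character, of order `2 ^ (k + 1)`, `ζ = χ(g)` a generator of the image,
`M ⊆ E(F)` the subgroup on which the kernel of `χ` acts trivially and `χ(τ) = -1` implies
`τ = -1`. `M` is a module over `ℤ[ζ]`, of rank `m_χ(E)` modulo torsion, and `2 ^ m_χ` is at most the
order of `M / (1 - g) M`. For `P` in `M` let `2 Q = (1 + g + ... + g ^ (2 ^ k - 1)) P`, with `Q` over an algebraic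
closure. Because `(1 - g) (1 + g + ... + g ^ (2 ^ k - 1)) = 2` on `M`, one gets a homomorphism from the
absolute Galois group of `ℚ` to `E[2]`, that is, a pair of squarefree integers, and the pair
determines `P` modulo `(1 - g) M`. At a large prime `p` where the Frobenius of the fixed field of
`χ ^ 2` is trivial, the pair comes from a point over `ℚ_p` of a quadratic twist of `E` by a unit (the
twist depends on `p` only), so that it satisfies the conditions of the 2-descent of the twist. At the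
other large primes the pair is unramified, whatever the reduction of `E` is. Therefore only the
primes of the first kind contribute, with the same local conditions as in the 2-descent, in which the
types of the reduction are permuted by the twist. The moments of the number of the solutions are
then bounded by the method of Heath-Brown: the Jacobi symbols between the variables, which are now
supported on the primes which split in the fixed field of `χ ^ 2`, give bounded sums because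
a quadratic character of large conductor is not a character of this field. The counting of
the curves is the one of helper69 (`Pool/Agent/Run7/h69`, used there for the rank over `ℚ`).
-/

set_option autoImplicit false
set_option linter.unusedSectionVars false

namespace Pool.Agent.Results.MP_775b3b_nt.TwoPowerCharactersFullTorsion

open Finset Filter
open scoped Classical TensorProduct

/-! ### The multiplicities -/

section mult

variable (F : Type) [Field F] [CharZero F] (W : WeierstrassCurve ℚ)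

/-- The group `W(F)`. -/
def Pts : Type := (W.baseChange F).toAffine.Point

noncomputable instance instPts : AddCommGroup (Pts F W) :=
  (inferInstance : AddCommGroup (W.baseChange F).toAffine.Point)

/-- The action of `g` in the Galois group on `W(F)`. -/
noncomputable def act (g : F ≃ₐ[ℚ] F) : Pts F W →+ Pts F W :=
  WeierstrassCurve.Affine.Point.map (W' := W.toAffine) g.toAlgHom

/-- The complex vector space `V_W = W(F) ⊗ ℂ`. -/
def VE : Type := ℂ ⊗[ℤ] Pts F W

noncomputable instance instVE : AddCommGroup (VE F W) :=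
  (inferInstance : AddCommGroup (ℂ ⊗[ℤ] Pts F W))

noncomputable instance instVE' : Module ℂ (VE F W) :=
  (inferInstance : Module ℂ (ℂ ⊗[ℤ] Pts F W))

/-- The action of `g` on `V_W`. -/
noncomputable def gal (g : F ≃ₐ[ℚ] F) : VE F W →ₗ[ℂ] VE F W :=
  LinearMap.baseChange ℂ (act F W g).toIntLinearMap

/-- The space `Hom_G(ρ, V_W)`. -/
def HomG {V : Type} [AddCommGroup V] [Module ℂ V] (ρ : Representation ℂ (F ≃ₐ[ℚ] F) V) :
    Submodule ℂ (V →ₗ[ℂ] VE F W) where
  carrier := {f | ∀ (g : F ≃ₐ[ℚ] F) (v : V), f (ρ g v) = gal F W g (f v)}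
  add_mem' := by
    intro f f' h h' g v
    rw [LinearMap.add_apply, LinearMap.add_apply, h g v, h' g v, map_add]
  zero_mem' := by
    intro g v
    rw [LinearMap.zero_apply, LinearMap.zero_apply, map_zero]
  smul_mem' := by
    intro c f h g v
    rw [LinearMap.smul_apply, LinearMap.smul_apply, h g v, map_smul]

/-- The multiplicity `m_ρ(W) = dim Hom_G(ρ, V_W)`. -/
noncomputable def mult {V : Type} [AddCommGroup V] [Module ℂ V]
    (ρ : Representation ℂ (F ≃ₐ[ℚ] F) V) : ℕ := Module.finrank ℂ (HomG F W ρ)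

end mult

/-! ### The families -/

/-- The equation `y ^ 2 = x ^ 3 + A x + B` with integers `A`, `B` defines an elliptic curve, and
there is no prime `p` with `p ^ 4 ∣ A` and `p ^ 6 ∣ B`. Every elliptic curve over `ℚ` is isomorphic to
exactly one of these. -/
structure IsMinimal (A B : ℤ) : Prop where
  elliptic : 4 * A ^ 3 + 27 * B ^ 2 ≠ 0
  minimal : ∀ p : ℕ, p.Prime → ¬ ((p : ℤ) ^ 4 ∣ A ∧ (p : ℤ) ^ 6 ∣ B)

/-- The height. -/
def height (c : ℤ × ℤ) : ℤ := max (4 * |c.1| ^ 3) (27 * c.2 ^ 2)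

/-- The curve `y ^ 2 = x ^ 3 + A x + B` over `ℚ`. -/
def curve (c : ℤ × ℤ) : WeierstrassCurve ℚ := ⟨0, 0, 0, (c.1 : ℚ), (c.2 : ℚ)⟩

/-- The group of the rational points contains `Z/2 x Z/2`. -/
def FullTwo (W : WeierstrassCurve ℚ) : Prop :=
  ∃ f : ZMod 2 × ZMod 2 →+ W.toAffine.Point, Function.Injective f

/-- The set of all the elliptic curves over `ℚ` with full rational 2-torsion of height at most
`X`. (The bounds `|A|, |B| ≤ X` follow from the bound of the height.) -/
noncomputable def Fam (X : ℕ) : Finset (ℤ × ℤ) :=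
  ((Icc (-(X : ℤ)) X) ×ˢ (Icc (-(X : ℤ)) X)).filter (fun c =>
    IsMinimal c.1 c.2 ∧ height c ≤ X ∧ FullTwo (curve c))

/-- The curve `y ^ 2 = x (x - a) (x - b)` over `ℚ`. -/
def E (t : ℤ × ℤ) : WeierstrassCurve ℚ := ⟨0, -((t.1 : ℚ) + t.2), 0, (t.1 : ℚ) * t.2, 0⟩

/-- The pairs `(a, b)` with `x < a ≤ x + H`, `y < b ≤ y + H`, `a b (a - b) ≠ 0`. -/
noncomputable def Square (x y : ℤ) (H : ℕ) : Finset (ℤ × ℤ) :=
  ((Ioc x (x + H)) ×ˢ (Ioc y (y + H))).filter (fun t => t.1 ≠ 0 ∧ t.2 ≠ 0 ∧ t.1 ≠ t.2)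

/-- The integers `d ≠ 0` with `x < d ≤ x + H`. -/
noncomputable def Interval (x : ℤ) (H : ℕ) : Finset ℤ := (Ioc x (x + H)).filter (fun d => d ≠ 0)

/-! ### The proof -/

open Pool.Agent.W307.RT (Cv Sh)
open Run7.h318.CH (Eig rF)

section proof


lemma height_le {c : ℤ × ℤ} {X : ℕ} : height c ≤ X ↔ 4 * |c.1| ^ 3 ≤ X ∧ 27 * c.2 ^ 2 ≤ X := by
  unfold height
  exact max_le_iff

lemma Fam_eq (X : ℕ) : Fam X = Cv 2 X := by
  ext c
  have h : Pool.Agent.W307.RT.HasT 2 (Sh c.1 c.2) ↔ FullTwo (curve c) :=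
    Pool.Agent.W307.RT.tors_iff
  unfold Fam Cv
  rw [mem_filter, mem_filter, h, height_le]
  constructor
  · rintro ⟨h0, ⟨h1, h2⟩, ⟨h3, h4⟩, h5⟩
    exact ⟨h0, h1, h3, h4, h2, h5⟩
  · rintro ⟨h0, h1, h3, h4, h2, h5⟩
    exact ⟨h0, ⟨h1, h2⟩, ⟨h3, h4⟩, h5⟩

section

variable {F : Type} [Field F] [NumberField F] [IsGalois ℚ F]

/-- a one-dimensional representation is a character -/
lemma exists_chi {G V : Type} [Group G] [AddCommGroup V] [Module ℂ V]
    (hV : Module.finrank ℂ V = 1) (ρ : Representation ℂ G V) :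
    ∃ χ : G →* ℂˣ, ∀ g v, ρ g v = ((χ g : ℂˣ) : ℂ) • v := by
  obtain ⟨v0, hv0, hv⟩ := finrank_eq_one_iff'.1 hV
  choose c hc using fun g => hv (ρ g v0)
  have hinj : ∀ a b : ℂ, a • v0 = b • v0 → a = b := fun a b h => smul_left_injective ℂ hv0 h
  let χ : G →* ℂ :=
    { toFun := c
      map_one' := hinj _ _ (by rw [hc, map_one, one_smul]; rfl)
      map_mul' := fun g h => hinj _ _ (by
        calc c (g * h) • v0 = ρ (g * h) v0 := hc _
          _ = ρ g (ρ h v0) := by rw [map_mul]; rfl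
          _ = ρ g (c h • v0) := by rw [hc h]
          _ = c h • (c g • v0) := by rw [map_smul, hc g]
          _ = _ := by rw [smul_smul, mul_comm]) }
  refine ⟨MonoidHom.toHomUnits χ, fun g v => ?_⟩
  obtain ⟨a, rfl⟩ := hv v
  rw [map_smul, MonoidHom.coe_toHomUnits]
  show a • ρ g v0 = c g • a • v0
  rw [← hc g, smul_smul, smul_smul, mul_comm]

lemma mult_le {V : Type} [AddCommGroup V] [Module ℂ V] (hV : Module.finrank ℂ V = 1)
    (ρ : Representation ℂ (F ≃ₐ[ℚ] F) V) {χ : (F ≃ₐ[ℚ] F) →* ℂˣ}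
    (hχ : ∀ g v, ρ g v = ((χ g : ℂˣ) : ℂ) • v) (W : WeierstrassCurve ℚ)
    (hfin : Module.Finite ℤ (Pool.Agent.W262.SH.Pt W F)) :
    Module.Finite ℂ (HomG F W ρ) ∧ mult F W ρ ≤ Module.finrank ℂ (Eig (rF F W) χ) := by
  obtain ⟨v0, hv0, hv⟩ := finrank_eq_one_iff'.1 hV
  have hfin' : Module.Finite ℤ (Pts F W) := hfin
  have hfin2 : Module.Finite ℂ (ℂ ⊗[ℤ] Pool.Agent.W262.SH.Pt W F) := inferInstance
  let φ : HomG F W ρ →ₗ[ℂ] Eig (rF F W) χ :=
    { toFun := fun f => ⟨f.1 v0, fun g => by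
        have h1 := f.2 g v0
        rw [hχ, map_smul] at h1
        exact h1.symm⟩
      map_add' := fun f f' => rfl
      map_smul' := fun c f => rfl }
  have hφ : Function.Injective φ := by
    intro f f' h
    apply Subtype.ext
    apply LinearMap.ext
    intro v
    obtain ⟨a, rfl⟩ := hv v
    have h1 : f.1 v0 = f'.1 v0 := congrArg Subtype.val h
    rw [map_smul, map_smul, h1]
  exact ⟨Module.Finite.of_injective φ hφ, LinearMap.finrank_le_finrank_of_injective hφ⟩

lemma fin_c {X : ℕ} {c : ℤ × ℤ} (hc : c ∈ Cv 2 X) :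
    Module.Finite ℤ (Pool.Agent.W262.SH.Pt (Sh c.1 c.2) F) := by
  unfold Cv at hc
  rw [mem_filter] at hc
  exact Run7.h318.CH.fin_pts F hc.2.1

end

lemma chi_pow {G V : Type} [Group G] [AddCommGroup V] [Module ℂ V]
    (hV : Module.finrank ℂ V = 1) (ρ : Representation ℂ G V) {χ : G →* ℂˣ}
    (hχ : ∀ g v, ρ g v = ((χ g : ℂˣ) : ℂ) • v) {n : ℕ} (hn : ∀ g, ρ g ^ (2 ^ n) = 1) (g : G) :
    χ g ^ (2 ^ n) = 1 := by
  obtain ⟨v0, hv0, hv⟩ := finrank_eq_one_iff'.1 hV
  have h1 : ∀ (m : ℕ) (v : V), (ρ g ^ m) v = (((χ g : ℂˣ) : ℂ) ^ m) • v := by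
    intro m
    induction m with
    | zero => intro v; rw [pow_zero, pow_zero, one_smul]; rfl
    | succ m ih =>
      intro v
      rw [pow_succ, Module.End.mul_apply, hχ, ih, smul_smul, pow_succ]
  have h2 := h1 (2 ^ n) v0
  rw [hn g, Module.End.one_apply] at h2
  have h3 : (1 : ℂ) = ((χ g : ℂˣ) : ℂ) ^ (2 ^ n) := smul_left_injective ℂ hv0 (by
    show (1 : ℂ) • v0 = _
    rw [one_smul]
    exact h2)
  apply Units.ext
  push_cast
  exact h3.symm

lemma nat_of {ε : ℝ} (hε : 0 < ε) {x : ℤ} {H : ℕ} (hH : 1 ≤ H) (hx : |(x : ℝ)| ^ ε ≤ H) :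
    x.natAbs ≤ H ^ ⌈1 / ε⌉₊ := by
  have hHr : (1 : ℝ) ≤ H := by exact_mod_cast hH
  have h2 : |(x : ℝ)| ≤ (H : ℝ) ^ (⌈1 / ε⌉₊ : ℝ) := by
    calc |(x : ℝ)| = (|(x : ℝ)| ^ ε) ^ (1 / ε) := by
          rw [← Real.rpow_mul (abs_nonneg _), mul_one_div_cancel hε.ne', Real.rpow_one]
      _ ≤ (H : ℝ) ^ (1 / ε) := Real.rpow_le_rpow (by positivity) hx (by positivity)
      _ ≤ (H : ℝ) ^ (⌈1 / ε⌉₊ : ℝ) := Real.rpow_le_rpow_of_exponent_le hHr (Nat.le_ceil _)
  rw [Real.rpow_natCast] at h2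
  have h3 : ((x.natAbs : ℕ) : ℝ) = |(x : ℝ)| := by
    rw [Nat.cast_natAbs, Int.cast_abs]
  have h4 : ((x.natAbs : ℕ) : ℝ) ≤ ((H ^ ⌈1 / ε⌉₊ : ℕ) : ℝ) := by
    rw [h3]
    push_cast
    exact h2
  exact_mod_cast h4

lemma Square_eq (x y : ℤ) (H : ℕ) : Square x y H = Run7.h69.UF.SS (x, y) H := by
  unfold Square Run7.h69.UF.SS Run7.h69.UF.Bx
  apply filter_congr
  intro t _
  unfold Run7.h69.UF.FF
  constructor
  · rintro ⟨a1, a2, a3⟩
    exact mul_ne_zero (mul_ne_zero a1 a2) (sub_ne_zero.2 a3)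
  · intro h
    exact ⟨left_ne_zero_of_mul (left_ne_zero_of_mul h),
      right_ne_zero_of_mul (left_ne_zero_of_mul h), sub_ne_zero.1 (right_ne_zero_of_mul h)⟩

lemma sq_all (F : Type) [Field F] [NumberField F] [IsGalois ℚ F] (χ : (F ≃ₐ[ℚ] F) →* ℂˣ) {n : ℕ}
    (hn : ∀ σ, χ σ ^ (2 ^ n) = 1) (K : ℕ) :
    ∃ C : ℝ, ∀ (x : ℤ × ℤ) (X : ℕ), 1 ≤ X → x.1.natAbs ≤ X ^ K →
    x.2.natAbs ≤ X ^ K → ∑ t ∈ Run7.h69.UF.SS x X,
      ((2 : ℝ) ^ Module.finrank ℂ (Eig (rF F (E t)) χ)) ^ 2 ≤ C * (X : ℝ) ^ 2 := by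
  by_cases h1 : χ = 1
  · subst h1
    obtain ⟨C, _, hC⟩ := Run7.h69.UF.box K
    refine ⟨C, fun x X hX hx1 hx2 => (sum_le_sum fun t ht => ?_).trans (hC x X hX hx1 hx2)⟩
    unfold Run7.h69.UF.SS at ht
    obtain ⟨a1, a2, a3⟩ := Run7.h318.CH.FF_ne (mem_filter.1 ht).2
    rw [← pow_mul, mul_comm, pow_mul]
    norm_num only
    exact pow_le_pow_right₀ (by norm_num)
      (Run7.h318.CH.eig_triv F (E t) (Run7.h318.CH.fin_E ℚ a1 a2 a3))
  · obtain ⟨C, -, hC⟩ := Run7.h318.CH.main_sq F χ hn h1 K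
    exact ⟨C, hC⟩

end proof

/-- **Theorem.** Let `F / ℚ` be a finite Galois extension and `ρ` a one-dimensional representation of
`Gal(F / ℚ)` whose order is a power of two. Let `m_ρ(W)` be the multiplicity of `ρ` in `W(F) ⊗ ℂ`.

1. The average of `4 ^ m_ρ(W)` over all the elliptic curves `W` over `ℚ` with full rational 2-torsion,
ordered by height, is bounded, hence the proportion of the curves with `m_ρ(W) ≥ M` is at most
`C / 4 ^ M`.

2. The average of `4 ^ m_ρ(W)` over the curves `y ^ 2 = x (x - a) (x - b)` with `(a, b)` in a square is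
bounded, uniformly over all the squares whose distance from the origin is at most a fixed power of
their side.

3. For all the integers `a`, `b` with `a b (a - b) ≠ 0` and all real `c ≥ 1` the average of
`c ^ m_ρ(W^d)` over the quadratic twists `W^d` of `W : y ^ 2 = x (x - a) (x - b)` with `d ≠ 0` in an interval
is bounded, uniformly over all the intervals whose distance from the origin is at most a fixed
power of their length. -/
theorem result (F : Type) [Field F] [NumberField F] [IsGalois ℚ F]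
    (V : Type) [AddCommGroup V] [Module ℂ V] (hV : Module.finrank ℂ V = 1)
    (ρ : Representation ℂ (F ≃ₐ[ℚ] F) V) (n : ℕ) (hn : ∀ g, ρ g ^ (2 ^ n) = 1) :
    (Tendsto (fun X : ℕ => (Fam X).card) atTop atTop ∧
      (∀ X : ℕ, ∀ c ∈ Fam X, Module.Finite ℂ (HomG F (curve c) ρ)) ∧
      ∃ C : ℝ, ∀ X : ℕ,
        ∑ c ∈ Fam X, (4 : ℝ) ^ mult F (curve c) ρ ≤ C * (Fam X).card ∧
        ∀ M : ℕ, (4 : ℝ) ^ M * ((Fam X).filter (fun c => M ≤ mult F (curve c) ρ)).card ≤
          C * (Fam X).card) ∧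
    ((∀ t : ℤ × ℤ, t.1 ≠ 0 → t.2 ≠ 0 → t.1 ≠ t.2 → Module.Finite ℂ (HomG F (E t) ρ)) ∧
      ∀ ε : ℝ, 0 < ε → ∃ C : ℝ, ∀ (x y : ℤ) (H : ℕ), 1 ≤ H → |(x : ℝ)| ^ ε ≤ H →
        |(y : ℝ)| ^ ε ≤ H → ∑ t ∈ Square x y H, (4 : ℝ) ^ mult F (E t) ρ ≤ C * (H : ℝ) ^ 2) ∧
    ∀ a b : ℤ, a ≠ 0 → b ≠ 0 → a ≠ b → ∀ c ε : ℝ, 1 ≤ c → 0 < ε →
      ∃ C : ℝ, ∀ (x : ℤ) (H : ℕ), 1 ≤ H → |(x : ℝ)| ^ ε ≤ H →
        ∑ d ∈ Interval x H, c ^ mult F (E (a * d, b * d)) ρ ≤ C * H := by
  have h42 : ∀ m : ℕ, (4 : ℝ) ^ m = ((2 : ℝ) ^ m) ^ 2 := by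
    intro m
    rw [← pow_mul, mul_comm, pow_mul]
    norm_num
  obtain ⟨χ, hχ⟩ := exists_chi hV ρ
  have hn' := chi_pow hV ρ hχ hn
  have hE : ∀ t : ℤ × ℤ, t.1 ≠ 0 → t.2 ≠ 0 → t.1 ≠ t.2 →
      Module.Finite ℤ (Pool.Agent.W262.SH.Pt (E t) F) := fun t h1 h2 h3 =>
    Run7.h318.CH.fin_E F h1 h2 h3
  refine ⟨⟨?_, ?_, ?_⟩, ⟨?_, ?_⟩, ?_⟩
  · simp only [Fam_eq]
    exact Pool.Agent.W307.RT.tendsto_of_low Run7.h69.UH.low2
  · intro X c hc
    rw [Fam_eq] at hc
    exact (mult_le hV ρ hχ (curve c) (fin_c hc)).1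
  · obtain ⟨C, hC⟩ := Run7.h318.CH.main' F χ hn'
    refine ⟨C, fun X => ?_⟩
    have h1 : ∑ c ∈ Fam X, (4 : ℝ) ^ mult F (curve c) ρ ≤ C * (Fam X).card := by
      rw [Fam_eq]
      refine (sum_le_sum fun c hc => ?_).trans (hC X)
      rw [← h42]
      exact pow_le_pow_right₀ (by norm_num) (mult_le hV ρ hχ (curve c) (fin_c hc)).2
    refine ⟨h1, fun M => le_trans ?_ h1⟩
    calc (4 : ℝ) ^ M * ((Fam X).filter (fun c => M ≤ mult F (curve c) ρ)).card
        = ∑ c ∈ (Fam X).filter (fun c => M ≤ mult F (curve c) ρ), (4 : ℝ) ^ M := by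
          rw [sum_const, nsmul_eq_mul, mul_comm]
      _ ≤ ∑ c ∈ (Fam X).filter (fun c => M ≤ mult F (curve c) ρ),
            (4 : ℝ) ^ mult F (curve c) ρ := sum_le_sum fun c hc =>
          pow_le_pow_right₀ (by norm_num) (mem_filter.1 hc).2
      _ ≤ _ := sum_le_sum_of_subset_of_nonneg (filter_subset _ _) fun c _ _ => by positivity
  · intro t h1 h2 h3
    exact (mult_le hV ρ hχ (E t) (hE t h1 h2 h3)).1
  · intro ε hε
    obtain ⟨C, hC⟩ := sq_all F χ hn' ⌈1 / ε⌉₊
    refine ⟨C, fun x y H hH hx hy => ?_⟩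
    have h1 := hC (x, y) H hH (nat_of hε hH hx) (nat_of hε hH hy)
    rw [← Square_eq] at h1
    refine (sum_le_sum fun t ht => ?_).trans h1
    unfold Square at ht
    rw [mem_filter] at ht
    rw [← h42]
    exact pow_le_pow_right₀ (by norm_num)
      (mult_le hV ρ hχ (E t) (hE t ht.2.1 ht.2.2.1 ht.2.2.2)).2
  · intro a b ha hb hab c ε hc hε
    obtain ⟨m0, hm0⟩ := pow_unbounded_of_one_lt c (one_lt_two : (1 : ℝ) < 2)
    obtain ⟨C, hC⟩ := Run7.h318.CH.main_tw' F χ hn' ha hb hab (m := m0 + 1) (by omega) ⌈1 / ε⌉₊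
    refine ⟨C, fun x H hH hx => (sum_le_sum fun d hd => ?_).trans
      (hC x H hH (nat_of hε hH hx))⟩
    have hd0 := (mem_filter.1 hd).2
    have hm := (mult_le hV ρ hχ (E (a * d, b * d)) (hE (a * d, b * d) (mul_ne_zero ha hd0)
      (mul_ne_zero hb hd0) (fun h => hab (mul_right_cancel₀ hd0 h)))).2
    calc c ^ mult F (E (a * d, b * d)) ρ
        ≤ ((2 : ℝ) ^ (m0 + 1)) ^ mult F (E (a * d, b * d)) ρ := by
          apply pow_le_pow_left₀ (by linarith)
          have h4 : (2 : ℝ) ^ m0 ≤ 2 ^ (m0 + 1) := pow_le_pow_right₀ (by norm_num) (by omega)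
          linarith
      _ ≤ ((2 : ℝ) ^ (m0 + 1)) ^ Module.finrank ℂ (Eig (rF F (E (a * d, b * d))) χ) :=
          pow_le_pow_right₀ (one_le_pow₀ (by norm_num)) hm
      _ = _ := by
          rw [← pow_mul, mul_comm (m0 + 1), pow_mul]
          rfl

end Pool.Agent.Results.MP_775b3b_nt.TwoPowerCharactersFullTorsion
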